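import Pool.Agent.Lib.MP_1639aa_nt.Fm.Main

namespace Pool.Agent.Results.MP_1639aa_nt.Formula

open Pool.Agent.Lib.MP_1639aa_nt

/-- For `n ≥ 2` and every transcendental real `ζ` with `w_1(ζ) ≥ 2 n - 1` or `phi n ζ ≤ 1`, both
uniform exponents are equal to the explicit quantity `phi n ζ`. -/
theorem result (𝕜 : Type) [RCLike 𝕜] (n : ℕ) (hn : 2 ≤ n) (ζ : ℝ) (hζ : Transcendental ℚ ζ)
    (hw : ((2 * n - 1 : ℝ) : EReal) ≤ wExp 1 ζ ∨ phi n ζ ≤ 1) :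
    wHatStarInt 𝕜 n ζ = phi n ζ ∧ wHatInt n ζ = phi n ζ :=
  Fm.main 𝕜 hn hζ.irrational hw

/-- The case of the classes `𝒟_{n,w}`. -/
theorem onClass (𝕜 : Type) [RCLike 𝕜] (n : ℕ) (hn : 2 ≤ n) (w : ℝ) (hw : 2 * (n : ℝ) - 1 ≤ w)
    (ζ : ℝ) (hζ : ζ ∈ classD 𝕜 n w) :
    wHatStarInt 𝕜 n ζ = phi n ζ ∧ wHatInt n ζ = phi n ζ :=
  result 𝕜 n hn ζ hζ.1
    (Or.inl ((EReal.coe_le_coe_iff.2 hw).trans (hζ.2 1 le_rfl (by omega)).1.ge))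

end Pool.Agent.Results.MP_1639aa_nt.Formula
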