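import Pool.Agent.Lib.MP_1639aa_nt.Roots
import Pool.Agent.Lib.MP_1639aa_nt.Steps

namespace Pool.Agent.Results.MP_1639aa_nt.Spectrum

open Pool.Agent.Lib.MP_1639aa_nt

/-- For `n ≥ 2` and `w ≥ 2n - 1`, every `v` between `(n-1)/(w-n+2)` and `(n-1)/(w-n+1)`, and for
`w ≥ 2n + 2` every `v` between the known bounds `(n-1)/(w-n+2)` and `n/(w-n+1)`, is the common
value of both uniform exponents at some number of the class `𝒟_{n,w}`. -/
theorem result (𝕜 : Type) [RCLike 𝕜] (n : ℕ) (hn : 2 ≤ n) (w v : ℝ) (hw : 2 * (n : ℝ) - 1 ≤ w)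
    (hv1 : ((n : ℝ) - 1) / (w - n + 2) ≤ v)
    (hv2 : v ≤ ((n : ℝ) - 1) / (w - n + 1) ∨ (2 * (n : ℝ) + 2 ≤ w ∧ v ≤ n / (w - n + 1))) :
    ∃ ζ ∈ classD 𝕜 n w, wHatStarInt 𝕜 n ζ = (v : EReal) ∧ wHatInt n ζ = (v : EReal) := by
  have hn2 : (2 : ℝ) ≤ n := by exact_mod_cast hn
  have he1 : 0 < w - n + 1 := by linarith
  have he2 : 0 < w - n + 2 := by linarith
  have hv0 : 0 < v := lt_of_lt_of_le (div_pos (by linarith) he2) hv1
  rw [div_le_iff₀ he2] at hv1
  set ν := (n - v * (w - n + 1)) / (1 + v) with hν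
  have hνv : ν * (1 + v) = n - v * (w - n + 1) := by
    rw [hν]
    field_simp
  have hν1 : ν ≤ 1 := by
    rw [hν, div_le_one (by linarith)]
    linarith
  have hν0 : 0 ≤ ν := by
    apply div_nonneg _ (by linarith)
    rcases hv2 with h | ⟨-, h⟩
    · rw [le_div_iff₀ he1] at h
      linarith
    · rw [le_div_iff₀ he1] at h
      linarith
  have hval : (n - ν) / (w - n + 1 + ν) = v := by
    rw [div_eq_iff (by linarith)]
    linarith
  suffices h : ∃ (M ζ K : ℝ) (p q N : ℕ → ℤ), Transcendental ℚ ζ ∧ Sys n w ν M K ζ p q N by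
    obtain ⟨M, ζ, K, p, q, N, hT, S⟩ := h
    refine ⟨ζ, ⟨hT, fun k hk1 hk => ⟨S.wExp_eq k hk1 hk, S.wStar_eq 𝕜 k hk1 hk⟩⟩, ?_, ?_⟩
    · rw [S.wHatStarInt_eq 𝕜, hval]
    · rw [S.wHatInt_eq, hval]
  by_cases hc : (1 - ν) * w ≤ n - 1
  · refine ⟨w, exists_sys n w ν w (1 / (2 * 4)) (1 / 4) (1 / (2 * 1)) (1 / 1) hn hw hν0 hν1
      (by linarith) (by nlinarith) (by norm_num) (by norm_num) (by norm_num) (by norm_num)
      (step_regular n w ν 4 hn hw hc hν1 (by norm_num))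
      (step_regular n w ν 1 hn hw hc hν1 le_rfl)⟩
  · push Not at hc
    have hw2 : 2 * (n : ℝ) + 2 ≤ w := by
      rcases hv2 with h | ⟨h, -⟩
      · exfalso
        rw [le_div_iff₀ he1] at h
        have h1 : (1 - ν) * (1 + v) = 1 + v - n + v * (w - n + 1) := by linarith
        have h2 : (n - 1) * (1 + v) < (1 - ν) * w * (1 + v) := by gcongr
        have h3 : (1 - ν) * w * (1 + v) = (1 + v - n + v * (w - n + 1)) * w := by
          rw [← h1]; ring
        have h4 : v * (w - n + 1) * (w + 1) ≤ (n - 1) * (w + 1) := by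
          gcongr
          linarith
        nlinarith only [h2, h3, h4]
      · exact h
    obtain ⟨k, rfl⟩ : ∃ k, n = k + 1 := ⟨n - 1, by omega⟩
    have hk : 1 ≤ k := by omega
    have hk1 : (1 : ℝ) ≤ k := by exact_mod_cast hk
    push_cast at hc hw2
    set θ := (w + 1) / k with hθdef
    have hθ : θ * k = w + 1 := by
      rw [hθdef]
      field_simp
    have hθ2 : 2 ≤ θ := by
      rw [hθdef, le_div_iff₀ (by linarith)]
      linarith
    have hMw : w ≤ (k + 1) * θ - 1 := by nlinarith only [hθ, hθ2]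
    have hνM : ((k + 1) * θ - 1) * ν ≤ (k + 1) * (θ - 1) := by
      have h1 : (1 - ν) * w ≤ (1 - ν) * ((k + 1) * θ - 1) := by
        gcongr
      nlinarith only [h1, hc]
    have hcond : ((k + 1 : ℕ) : ℝ) * ((k + 1) * θ - 1) ≤ w * (w + 1 - ((k + 1 : ℕ) : ℝ)) := by
      push_cast
      have h1 : ((k + 1) * ((k + 1) * θ - 1)) * k ≤ (w * (w + 1 - (k + 1))) * k := by
        have h2 : ((k + 1) * ((k + 1) * θ - 1)) * k = (k + 1) * ((k + 1) * (w + 1) - k) := by
          rw [← hθ]; ring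
        rw [h2]
        obtain ⟨x, hx, rfl⟩ : ∃ x : ℝ, 0 ≤ x ∧ w = 2 * k + 4 + x := ⟨w - (2 * k + 4), by linarith, by ring⟩
        obtain ⟨y, hy, hy2⟩ : ∃ y : ℝ, 0 ≤ y ∧ (k : ℝ) = 1 + y := ⟨k - 1, by linarith, by ring⟩
        rw [hy2]
        have h3 : 0 ≤ x * y := by positivity
        have h4 : 0 ≤ x * x := by positivity
        have h5 : 0 ≤ y * y := by positivity
        have h6 : 0 ≤ x * x * y := by positivity
        have h7 : 0 ≤ x * y * y := by positivity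
        nlinarith only [hx, hy, h3, h4, h5, h6, h7]
      exact le_of_mul_le_mul_right h1 (by linarith)
    have hpow : (12 : ℝ) ^ k * 6 < (6 * 24) ^ k := by
      have h1 : ((6 : ℝ) * 24) ^ k = 12 ^ k * 12 ^ k := by
        rw [← mul_pow]
        norm_num
      have h2 : (12 : ℝ) ≤ 12 ^ k := le_self_pow₀ (by norm_num) (by omega)
      rw [h1]
      gcongr
      linarith
    have hwin : ∀ τ : ℝ, 1 ≤ τ → 1 / (12 * τ) ^ k ≤ 6 / (6 * τ) ^ k := by
      intro τ hτ
      gcongr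
      · norm_num
      · norm_num
    refine ⟨(k + 1) * θ - 1, exists_sys (k + 1) w ν _ (1 / (12 * 24) ^ k) (6 / (6 * 24) ^ k)
      (1 / (12 * 1) ^ k) (6 / (6 * 1) ^ k) hn hw hν0 hν1 (by linarith) hcond (by positivity)
      (hwin 24 (by norm_num)) ?_ (hwin 1 le_rfl)
      (step_sparse k w ν θ 24 hk hθ hθ2 hν0 hνM (by norm_num))
      (step_sparse k w ν θ 1 hk hθ hθ2 hν0 hνM le_rfl)⟩
    rw [mul_one, div_lt_div_iff₀ (by positivity) (by positivity)]
    linarith

end Pool.Agent.Results.MP_1639aa_nt.Spectrum
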